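import Pool.Agent.R900.KB.Main

/-!
# Bass's finite generation conjecture and Jacobian abelian schemes

A Jacobian is the relative Jacobian `J` of a smooth projective curve `C → V` with geometrically connected
fibres and a section, over a regular affine connected base `V`. `K i X` is `K'_i(X)`.
-/

set_option autoImplicit false

open Pool.Agent.R900.KB

namespace Pool.Agent.Results.MP_e17fa799_al.AbelianSchemes

/-- (1) For every `n`, the groups `K'_n` of all schemes of finite type over `ℤ` are finitely generated up to
groups of finite exponent if and only if those of all Jacobians are. (2) If this is so for `n` then `K'_i(X)`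
is finitely generated for all such schemes and `dim X ≤ i ≤ n`. (3) The version of (1) for the schemes of
dimension at most `d` and the Jacobians over bases of dimension less than `d`, in the degrees at most `n`. (4) For
the schemes over finite fields the condition `HasFibrations` holds for all primes, and (1) and (3) are
true for finite generation itself. -/
theorem result {S : Type} (G : Schemes S) (hG : IsSchemes G) (T : KTheory S)
    (hT : IsKTheory G T) :
    OneDegree G T ∧ LargeDegrees G T ∧ Bounded G T ∧
    ((∀ l : ℕ, l.Prime → HasFibrations G l) → OneDegreeIntegral G T ∧ BoundedIntegral G T) :=
  ⟨oneDegree hG hT, largeDegrees hG hT, bounded hG hT,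
    fun hl => ⟨oneDegreeIntegral hG hT hl, boundedIntegral hG hT hl⟩⟩

end Pool.Agent.Results.MP_e17fa799_al.AbelianSchemes
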