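import Pool.Agent.R904.CU.KMain

/-!
# Bass's finite generation conjecture is a statement about explicit smooth cubic hypersurfaces

`KPrime` lists the properties of Quillen's groups `K'_n(X)` of schemes of finite type over `ℤ` which are
used: localization, invariance under affine bundles, the fundamental theorem and the finite generation of
`K_n(ℤ)`. For polynomials `gₖ` of degree at most two over `ℤ` in variables `x` let `E_g` be the
hypersurface `∑ yₖ gₖ(x) = 1`; it is smooth over `ℤ`, regular and of degree at most three.
-/

set_option autoImplicit false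

open Pool.Agent.R904.CU AlgebraicGeometry

namespace Pool.Agent.Results.MP_e17fa799_al.CubicHypersurfaces

/-- (1) Bass's conjecture holds (all `n`, all regular schemes of finite type over `ℤ`) if and only if
for infinitely many `n` the groups `K'_n(E_g)` of all hypersurfaces `E_g : ∑ yₖ gₖ(x) = 1`, with
`deg gₖ ≤ 2`, are finitely generated. (2) For every `n`, `K'_n(X)` is finitely generated for all schemes
of finite type over `ℤ` if and only if `K'_{n+1}(E_g)` is finitely generated for all `g`. (3) `K'_0(E_g)`
is always finitely generated. (4) The `E_g` are smooth hypersurfaces of degree at most three and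
regular. -/
theorem result (K : KPrime) :
    (K.Bass ↔ ∀ m : ℕ, ∃ n : ℕ, m ≤ n ∧ K.CubicFG n) ∧
    (∀ n : ℕ, K.AllFG n ↔ K.CubicFG (n + 1)) ∧ K.CubicFG 0 ∧
    (∀ (σ κ : Type) [Fintype σ] [Fintype κ] (g : κ → MvPolynomial σ ℤ),
      (∀ k, (g k).totalDegree ≤ 2) → IsSmoothCubic (bigPoly g) ∧ IsRegularScheme (quadHyp g)) :=
  ⟨K.bass_iff, fun n => ⟨K.cubicFG_of_allFG n, K.allFG_of_cubicFG n⟩, K.cubicFG_zero,
    fun _ _ _ _ g hg => ⟨isSmoothCubic_bigPoly g hg, isRegularScheme_hyp g⟩⟩

end Pool.Agent.Results.MP_e17fa799_al.CubicHypersurfaces
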