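import Pool.Agent.R166.SK.Bass

/-!
# MP_e17fa799_al: Bass's conjecture for few pairs (dimension, degree)

An elementary arrangement is a finite union of hypersurfaces of the forms `x_i x_j = x_k`,
`x_i + x_j = x_k`, `x_i = 1` in an affine space over `ℤ`. Its complement `compl a` is the spectrum of
`ℤ[x_1, …, x_N, 1/a]`, where `a` is the product of the polynomials `x_i x_j - x_k`, `x_i + x_j - x_k`,
`x_i - 1`: a smooth affine scheme over `ℤ`, open in affine space, of dimension `d = N + 1`.

`KPrime` (Pool/Agent/R904/CU/KDefs.lean) lists the theorems of Quillen on the groups `K'_n(X)` which are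
used.

Let `R` be a set of pairs `(d, n)` such that every diagonal `{(d + k, n + k)}` contains points of `R`
arbitrarily far out; for example all pairs with `n ≥ d - φ(d)` for some unbounded function `φ`, or all
pairs with `d` in some infinite set. Bass's conjecture is equivalent to the statement that `K'_n(U)` is
finitely generated for the complements `U` of elementary arrangements with `(dim U, n)` in `R`.

The proof. Localization sequences, presentations of rings by elementary relations, Mayer-Vietoris and
noetherian induction (R904.EL of helper904) show that the complements `U` suffice if all degrees are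
allowed. The group `K'_n(U)` is a direct summand of `K'_{n+k}(U × 𝔾ₘ^k)`, and `U × 𝔾ₘ^k` is the
complement of an elementary arrangement (the new variables are different from 1), of dimension `d + k`.
-/

set_option autoImplicit false

open CategoryTheory AlgebraicGeometry
open Pool.Agent.R904.CU Pool.Agent.R904.EL Pool.Agent.R166.SK

namespace Pool.Agent.Results.MP_e17fa799_al.DimensionAndDegree

/-- **Main theorem.** -/
theorem result (K : KPrime) :
    (∀ R : Set (ℕ × ℕ), (∀ d n, ∃ k, (d + k, n + k) ∈ R) → (K.Bass ↔ ArrFin K R)) ∧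
    -- the degrees `n ≥ d - φ(d)`
    (∀ φ : ℕ → ℕ, (∀ B, ∃ d, B ≤ φ d) → (K.Bass ↔ ∀ (σ : Type) [Fintype σ],
      ∀ a ∈ elemProds ({1} : Set ℤ) σ, ∀ n : ℕ,
        Fintype.card σ + 1 ≤ n + φ (Fintype.card σ + 1) → AddGroup.FG (K.G n (compl a)))) ∧
    -- infinitely many dimensions
    (∀ D : Set ℕ, D.Infinite → (K.Bass ↔ ∀ (σ : Type) [Fintype σ], Fintype.card σ + 1 ∈ D →
      ∀ a ∈ elemProds ({1} : Set ℤ) σ, ∀ n : ℕ, AddGroup.FG (K.G n (compl a)))) := by
  have h1 : ∀ R : Set (ℕ × ℕ), (∀ d n, ∃ k, (d + k, n + k) ∈ R) → (K.Bass ↔ ArrFin K R) :=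
    fun R hR => (bass_iff K).trans (arrFin_iff K hR).symm
  refine ⟨h1, fun φ hφ => ?_, fun D hD => ?_⟩
  · refine (h1 {p | p.1 ≤ p.2 + φ p.1} fun d n => ?_).trans ?_
    · obtain ⟨e, he1, he2⟩ := Pool.Agent.R166.SW.EtTheory.exists_large hφ d d
      refine ⟨e - d, ?_⟩
      have h2 : d + (e - d) = e := by omega
      show d + (e - d) ≤ n + (e - d) + φ (d + (e - d))
      rw [h2]
      omega
    · exact Iff.rfl
  · refine (h1 {p | p.1 ∈ D} fun d n => ?_).trans ?_
    · obtain ⟨e, he1, he2⟩ := hD.exists_gt d
      refine ⟨e - d, ?_⟩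
      have h2 : d + (e - d) = e := by omega
      show d + (e - d) ∈ D
      rwa [h2]
    · exact ⟨fun h σ _ hσ a ha n => h σ a ha n hσ, fun h σ _ a ha n hσ => h σ hσ a ha n⟩

end Pool.Agent.Results.MP_e17fa799_al.DimensionAndDegree
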