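import Pool.Agent.R904.TR.Res

/-!
# Bass's finite generation conjecture and trilinear forms

`KThy` lists the properties of Quillen's groups `K'_n(X)` of schemes of finite type over `ℤ` which are
used: localization, homotopy invariance for the affine bundles of Jouanolou, the fundamental theorem, and
finite generation in dimension at most one (Quillen, Harder). `K.Fin X` means that all groups `K'_n(X)`
are finitely generated.
-/

set_option autoImplicit false

open Pool.Agent.R904.CU Pool.Agent.R904.TR Pool.Agent.Y116.UV AlgebraicGeometry

namespace Pool.Agent.Results.MP_e17fa799_al.TrilinearForms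

/-- (1) Bass's conjecture is equivalent to finite generation of all `K'_n` of the hypersurfaces
`T(x, y, z) = 1` over `ℤ`, for all trilinear forms `T` with coefficients `0` and `1`. (2) Over a finite field
`k` and for every `d`, the conjecture for the smooth schemes over `k` of dimension at most `d` is
equivalent to finite generation of all `K'_n` of the hypersurfaces `T(x, y, z) = 1` for trilinear forms
`T` over `k` with a block of at most `d + 2` variables. (3) All `K'_n` of `T(x, y, z) = 1` over a finite
field are finitely generated, if one of the three blocks has at most three variables. (4) The same is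
true over every domain of dimension at most one and finitely generated over `ℤ`, if one of the blocks has
at most two variables. (5) These hypersurfaces are smooth over the base ring, and regular if the base
ring is regular. -/
theorem result (K : KThy) :
    (K.Bass ↔ K.ZeroOne) ∧
    (∀ (k : Type) [Field k] [Finite k], (∀ d : ℕ, K.SmoothDim k d ↔ K.Block k (d + 2)) ∧
      K.Block k 3) ∧
    (∀ (R : Type) [CommRing R] [IsDomain R] [Algebra.FiniteType ℤ R], ringKrullDim R ≤ 1 →
      K.Block R 2) ∧
    ∀ (R : Type) [CommRing R] (a b c : ℕ) (T : Fin a → Fin b → Fin c → R),
      Algebra.Smooth R (Hyp T) ∧ (IsRegularRing R → IsRegularScheme (hypS T).left) :=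
  ⟨bass_iff K,
    fun k _ _ => ⟨fun d => (dim_iff K k d).1, fun _ _ _ T h => three K k T h⟩,
    fun R _ _ _ hd _ _ _ T h => two K R hd T h,
    fun _ _ _ _ _ T => ⟨hyp_smooth T, fun _ => regular_hyp T⟩⟩

end Pool.Agent.Results.MP_e17fa799_al.TrilinearForms
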